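import Mathlib
import Pool.Agent.Z700.Defs2

/-! # Existence of sets of primes with odd determinant -/

set_option autoImplicit false

namespace Pool.Agent.Y931.Z700

open Finset Pool.Agent.Z700

/-- the equation at a point -/
def EqAt (l : ℕ → ℕ → ℤ) (x : ℕ → ℤ) (S : Finset ℕ) (v : ℕ → ZMod 2) (i : ℕ) : Prop :=
  ∑ k ∈ S.erase i, (l i k : ZMod 2) * (v i - v k) + (x i : ZMod 2) * v i = 0

theorem odd_iff (l : ℕ → ℕ → ℤ) (x : ℕ → ℤ) (S : Finset ℕ) :
    Odd (Yd l x S) ↔ ∀ v : ℕ → ZMod 2, (∀ i ∈ S, EqAt l x S v i) → ∀ i ∈ S, v i = 0 := by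
  classical
  set M : Matrix S S (ZMod 2) := (Matrix.of fun i j : S =>
    if i = j then (∑ k ∈ S.erase i.1, (l i k : ZMod 2)) + x i else -(l i j : ZMod 2)) with hM
  have h1 : ((Yd l x S : ℤ) : ZMod 2) = M.det := by
    show (Int.castRingHom (ZMod 2)) (Yd l x S) = M.det
    unfold Yd
    rw [RingHom.map_det]
    congr 1
    ext i j
    rw [hM]
    simp only [RingHom.mapMatrix_apply, Matrix.map_apply, Matrix.of_apply, Int.coe_castRingHom]
    split_ifs <;> push_cast <;> rfl
  have h2 : Odd (Yd l x S) ↔ M.det ≠ 0 := by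
    rw [← h1, Ne, ZMod.intCast_zmod_eq_zero_iff_dvd, ← Int.not_even_iff_odd, even_iff_two_dvd]
    norm_num
  have h3 : ∀ (v : ℕ → ZMod 2) (i : S), (M.mulVec fun j : S => v j) i =
      ∑ k ∈ S.erase i.1, (l i k : ZMod 2) * (v i - v k) + (x i : ZMod 2) * v i := by
    intro v i
    rw [Matrix.mulVec, dotProduct]
    have h4 : ∀ j : S, M i j * v j = (fun j' : ℕ => if j' = (i : ℕ) then
        ((∑ k ∈ S.erase i.1, (l i k : ZMod 2)) + x i) * v i else -(l i j' : ZMod 2) * v j') j := by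
      intro j
      rw [hM]
      simp only [Matrix.of_apply]
      by_cases hij : i = j
      · subst hij
        simp
      · have : (j : ℕ) ≠ (i : ℕ) := fun h => hij (Subtype.ext h.symm)
        rw [if_neg hij, if_neg this]
    rw [Finset.sum_congr rfl fun j _ => h4 j, Finset.sum_coe_sort S (fun j' : ℕ =>
      if j' = (i : ℕ) then ((∑ k ∈ S.erase i.1, (l i k : ZMod 2)) + x i) * v i
        else -(l i j' : ZMod 2) * v j')]
    rw [← Finset.add_sum_erase S _ i.2, if_pos rfl]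
    have h5 : ∑ j' ∈ S.erase (i : ℕ), (if j' = (i : ℕ) then
        ((∑ k ∈ S.erase i.1, (l i k : ZMod 2)) + x i) * v i else -(l i j' : ZMod 2) * v j') =
        ∑ j' ∈ S.erase (i : ℕ), -(l i j' : ZMod 2) * v j' :=
      Finset.sum_congr rfl fun j' hj' => by rw [if_neg (Finset.ne_of_mem_erase hj')]
    rw [h5]
    simp only [mul_sub, Finset.sum_sub_distrib, neg_mul, Finset.sum_neg_distrib]
    rw [← Finset.sum_mul]
    ring
  rw [h2, Ne, ← Matrix.exists_mulVec_eq_zero_iff, not_exists]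
  constructor
  · intro h v hv i hi
    by_contra hne
    refine h (fun j : S => v j) ⟨fun h0 => hne (congrFun h0 ⟨i, hi⟩), ?_⟩
    funext j
    rw [h3]
    exact hv j j.2
  · rintro h w ⟨hw0, hw⟩
    apply hw0
    funext i
    have h6 : ∀ j : S, (fun k : ℕ => if hk : k ∈ S then w ⟨k, hk⟩ else 0) j = w j := by
      intro j
      simp
    have h7 := h (fun k : ℕ => if hk : k ∈ S then w ⟨k, hk⟩ else 0) ?_ i i.2
    · exact (h6 i).symm.trans h7
    · intro j hj
      have h8 := h3 (fun k : ℕ => if hk : k ∈ S then w ⟨k, hk⟩ else 0) ⟨j, hj⟩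
      have h9 : (fun k : S => (fun k : ℕ => if hk : k ∈ S then w ⟨k, hk⟩ else 0) k) = w :=
        funext h6
      rw [h9, hw] at h8
      exact h8.symm

theorem eq_insert {l : ℕ → ℕ → ℤ} {x : ℕ → ℤ} {S : Finset ℕ} {v : ℕ → ZMod 2} {q i : ℕ}
    (hq : q ∉ S) (hi : i ∈ S) :
    EqAt l x (insert q S) v i ↔ (l i q : ZMod 2) * (v i - v q) +
      (∑ k ∈ S.erase i, (l i k : ZMod 2) * (v i - v k) + (x i : ZMod 2) * v i) = 0 := by
  unfold EqAt
  have hqi : q ≠ i := fun h => hq (h ▸ hi)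
  rw [Finset.erase_insert_of_ne hqi, Finset.sum_insert (by simp [hq]), add_assoc]

/-- adding an isolated point with diagonal entry one -/
theorem add_iso {x : ℕ → ℤ} {S : Finset ℕ} {q : ℕ} (hq : q ∉ S)
    (hl : ∀ p ∈ S, lres q p = 0 ∧ lres p q = 0) (hx : x q = 1) (h : Odd (Yd lres x S)) :
    Odd (Yd lres x (insert q S)) := by
  rw [odd_iff] at h ⊢
  intro v hv
  have h0 : ∀ i ∈ S, v i = 0 := by
    refine h v fun i hi => ?_
    have h1 := hv i (Finset.mem_insert_of_mem hi)
    rw [eq_insert hq hi, (hl i hi).2] at h1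
    simpa [EqAt] using h1
  intro i hi
  rcases Finset.mem_insert.mp hi with rfl | hi
  · have h1 := hv i (Finset.mem_insert_self i S)
    unfold EqAt at h1
    rw [Finset.erase_insert hq, Finset.sum_eq_zero fun k hk => by rw [(hl k hk).1]; simp, hx] at h1
    simpa using h1
  · exact h0 i hi

/-- adding a leaf with diagonal entry zero -/
theorem add_leaf {x : ℕ → ℤ} {S : Finset ℕ} {q c : ℕ} (hq : q ∉ S) (hc : c ∈ S)
    (hl : ∀ p ∈ S, p ≠ c → lres q p = 0 ∧ lres p q = 0) (hlc : lres q c = 1) (hx : x q = 0)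
    (h : Odd (Yd lres x S)) : Odd (Yd lres x (insert q S)) := by
  rw [odd_iff] at h ⊢
  intro v hv
  have hqc : v q = v c := by
    have h1 := hv q (Finset.mem_insert_self q S)
    unfold EqAt at h1
    rw [Finset.erase_insert hq, ← Finset.add_sum_erase S _ hc,
      Finset.sum_eq_zero fun k hk => by
        rw [(hl k (Finset.mem_of_mem_erase hk) (Finset.ne_of_mem_erase hk)).1]; simp, hx, hlc] at h1
    have h2 : v q - v c = 0 := by simpa using h1
    exact sub_eq_zero.mp h2
  have h0 : ∀ i ∈ S, v i = 0 := by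
    refine h v fun i hi => ?_
    have h1 := hv i (Finset.mem_insert_of_mem hi)
    rw [eq_insert hq hi] at h1
    have h2 : (lres i q : ZMod 2) * (v i - v q) = 0 := by
      by_cases hic : i = c
      · rw [hic, hqc, sub_self, mul_zero]
      · rw [(hl i hi hic).2]
        simp
    rw [h2, zero_add] at h1
    exact h1
  intro i hi
  rcases Finset.mem_insert.mp hi with rfl | hi
  · rw [hqc]
    exact h0 c hc
  · exact h0 i hi

theorem odd_single {x : ℕ → ℤ} {p : ℕ} (hx : x p = 1) : Odd (Yd lres x {p}) := by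
  rw [odd_iff]
  intro v hv i hi
  rw [Finset.mem_singleton] at hi
  subst hi
  have h1 := hv i (Finset.mem_singleton_self i)
  unfold EqAt at h1
  simpa [hx] using h1

theorem odd_pair {x : ℕ → ℤ} {p q : ℕ} (hpq : q ≠ p) (hx : x p = 1) (hxq : x q = 1)
    (h1 : lres q p = 1) (h2 : lres p q = 1) : Odd (Yd lres x {q, p}) := by
  rw [odd_iff]
  intro v hv
  have e1 := hv q (by simp)
  have e2 := hv p (by simp)
  unfold EqAt at e1 e2
  have hs1 : ({q, p} : Finset ℕ).erase q = {p} := by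
    ext a
    simp only [Finset.mem_erase, Finset.mem_insert, Finset.mem_singleton]
    constructor
    · rintro ⟨h, h' | h'⟩
      · exact absurd h' h
      · exact h'
    · rintro rfl
      exact ⟨hpq.symm, Or.inr rfl⟩
  have hs2 : ({q, p} : Finset ℕ).erase p = {q} := by
    ext a
    simp only [Finset.mem_erase, Finset.mem_insert, Finset.mem_singleton]
    constructor
    · rintro ⟨h, h' | h'⟩
      · exact h'
      · exact absurd h' h
    · rintro rfl
      exact ⟨hpq, Or.inl rfl⟩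
  rw [hs1, Finset.sum_singleton, h1, hxq] at e1
  rw [hs2, Finset.sum_singleton, h2, hx] at e2
  push_cast at e1 e2
  have key : ∀ a b : ZMod 2, 1 * (a - b) + 1 * a = 0 → 1 * (b - a) + 1 * b = 0 → a = 0 ∧ b = 0 := by
    decide
  obtain ⟨ha, hb⟩ := key _ _ e1 e2
  intro i hi
  rcases Finset.mem_insert.mp hi with rfl | hi
  · exact ha
  · rw [Finset.mem_singleton] at hi
    subst hi
    exact hb

/-! ### primes with given symbols -/

theorem exists_res {p : ℕ} (hp : Fam p) {s : ℤ} (hs : s = 1 ∨ s = -1) :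
    ∃ r : ℕ, jacobiSym r p = s := by
  haveI : Fact p.Prime := ⟨hp.1⟩
  have hp2 : p ≠ 2 := by
    rintro rfl
    have := hp.2.1
    omega
  rcases hs with rfl | rfl
  · exact ⟨1, by simp⟩
  · obtain ⟨a, ha⟩ := FiniteField.exists_nonsquare (F := ZMod p) (by rwa [ZMod.ringChar_zmod_n])
    refine ⟨a.val, ?_⟩
    rw [← jacobiSym.legendreSym.to_jacobiSym]
    rw [legendreSym.eq_neg_one_iff]
    push_cast
    rwa [ZMod.natCast_zmod_val]

theorem exists_fam (F : Finset ℕ) (hF : ∀ p ∈ F, Fam p) (s : ℕ → ℤ)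
    (hs : ∀ p ∈ F, s p = 1 ∨ s p = -1) : ∃ q, Fam q ∧ q ∉ F ∧ ∀ p ∈ F, jacobiSym q p = s p := by
  classical
  have hr : ∀ p : ℕ, ∃ r : ℕ, p ∈ F → jacobiSym r p = s p := by
    intro p
    by_cases hp : p ∈ F
    · obtain ⟨r, hr⟩ := exists_res (hF p hp) (hs p hp)
      exact ⟨r, fun _ => hr⟩
    · exact ⟨0, fun h => absurd h hp⟩
  choose r hr using hr
  have h168 : 168 ∉ F := fun h => by
    have := (hF 168 h).2.1
    omega
  have hc168 : ∀ p ∈ F, Nat.Coprime 168 p := by
    intro p hp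
    obtain ⟨pp, p24, p7⟩ := hF p hp
    rw [show (168 : ℕ) = 2 ^ 3 * 3 * 7 by norm_num]
    refine Nat.Coprime.mul_left (Nat.Coprime.mul_left (Nat.Coprime.pow_left 3
      ((Nat.coprime_primes Nat.prime_two pp).2 (by omega)))
      ((Nat.coprime_primes (by norm_num) pp).2 (by omega)))
      ((Nat.coprime_primes (by norm_num) pp).2 (by omega))
  have hpair : Set.Pairwise (↑(insert 168 F) : Set ℕ) (Function.onFun Nat.Coprime id) := by
    intro a ha b hb hab
    simp only [Finset.coe_insert, Set.mem_insert_iff, Finset.mem_coe] at ha hb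
    simp only [Function.onFun, id]
    rcases ha with rfl | ha <;> rcases hb with rfl | hb
    · exact absurd rfl hab
    · exact hc168 b hb
    · exact (hc168 a ha).symm
    · exact (Nat.coprime_primes (hF a ha).1 (hF b hb).1).mpr hab
  have hne : ∀ i ∈ insert 168 F, id i ≠ 0 := by
    intro i hi
    rcases Finset.mem_insert.mp hi with rfl | hi
    · norm_num
    · exact (hF i hi).1.ne_zero
  obtain ⟨n, hn⟩ := Nat.chineseRemainderOfFinset (fun i => if i = 168 then 1 else r i) id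
    (insert 168 F) hne hpair
  simp only [id] at hn
  have hn1 : n ≡ 1 [MOD 168] := by
    have := hn 168 (Finset.mem_insert_self _ _)
    simpa using this
  have hn2 : ∀ p ∈ F, n ≡ r p [MOD p] := by
    intro p hp
    have := hn p (Finset.mem_insert_of_mem hp)
    rwa [if_neg (fun h : p = 168 => h168 (h ▸ hp))] at this
  set N := ∏ i ∈ insert 168 F, i with hN
  have hN0 : N ≠ 0 := Finset.prod_ne_zero_iff.mpr hne
  haveI : NeZero N := ⟨hN0⟩
  have hcop : Nat.Coprime n N := by
    refine Nat.Coprime.prod_right fun i hi => ?_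
    rcases Finset.mem_insert.mp hi with rfl | hi
    · rw [Nat.coprime_iff_gcd_eq_one, hn1.gcd_eq]
      norm_num
    · rw [Nat.coprime_iff_gcd_eq_one, (hn2 i hi).gcd_eq]
      have h1 := hr i hi
      by_contra hg
      have h2 : jacobiSym (r i) i = 0 := by
        rw [jacobiSym.eq_zero_iff]
        exact ⟨(hF i hi).1.ne_zero, by rwa [Int.gcd_natCast_natCast]⟩
      rw [h2] at h1
      rcases hs i hi with h | h <;> rw [h] at h1 <;> norm_num at h1
  have hunit : IsUnit ((n : ℕ) : ZMod N) := by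
    rw [ZMod.isUnit_iff_coprime]
    exact hcop
  obtain ⟨q, ⟨hq, hqn⟩⟩ := (Nat.infinite_setOfPred_prime_and_eq_mod hunit).nonempty
  rw [ZMod.natCast_eq_natCast_iff] at hqn
  have hdv : ∀ i ∈ insert 168 F, i ∣ N := fun i hi => Finset.dvd_prod_of_mem _ hi
  have hq1 : q ≡ 1 [MOD 168] := (hqn.of_dvd (hdv 168 (Finset.mem_insert_self _ _))).trans hn1
  have hq2 : ∀ p ∈ F, q ≡ r p [MOD p] := fun p hp =>
    (hqn.of_dvd (hdv p (Finset.mem_insert_of_mem hp))).trans (hn2 p hp)
  have hJ : ∀ p ∈ F, jacobiSym q p = s p := by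
    intro p hp
    rw [← hr p hp]
    apply jacobiSym.mod_left'
    exact_mod_cast hq2 p hp
  refine ⟨q, ⟨hq, ?_, ?_⟩, ?_, hJ⟩
  · have h1 : q % 168 = 1 := by simpa [Nat.ModEq] using hq1
    omega
  · have h1 : q % 168 = 1 := by simpa [Nat.ModEq] using hq1
    omega
  · intro hqF
    have h1 := hJ q hqF
    have h2 : jacobiSym q q = 0 := by
      rw [jacobiSym.eq_zero_iff]
      refine ⟨hq.ne_zero, ?_⟩
      rw [Int.gcd_natCast_natCast, Nat.gcd_self]
      exact hq.one_lt.ne'
    rw [h2] at h1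
    rcases hs q hqF with h | h <;> rw [h] at h1 <;> norm_num at h1

theorem fam_odd {p : ℕ} (hp : Fam p) : Odd p := by
  rw [Nat.odd_iff]
  have := hp.2.1
  omega

theorem recip {p q : ℕ} (hp : Fam p) (hq : Fam q) : jacobiSym p q = jacobiSym q p :=
  jacobiSym.quadratic_reciprocity_one_mod_four (by have := hp.2.1; omega) (fam_odd hq)

theorem lres_zero {p q : ℕ} (hp : Fam p) (hq : Fam q) (h : jacobiSym q p = 1) :
    lres q p = 0 ∧ lres p q = 0 := by
  have h2 : jacobiSym p q = 1 := by rw [recip hp hq, h]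
  unfold lres
  rw [h, h2]
  norm_num

theorem lres_one {p q : ℕ} (h : jacobiSym q p = -1) :
    lres q p = 1 ∧ lres p q = 1 := by
  unfold lres
  rw [h]
  norm_num

/-- successive extension -/
theorem extend (x : ℕ → ℤ) (B S0 : Finset ℕ) (hS0 : ∀ p ∈ S0, Fam p) (hodd : Odd (Yd lres x S0))
    (step : ∀ S : Finset ℕ, S0 ⊆ S → (∀ p ∈ S, Fam p) → Odd (Yd lres x S) →
      ∃ q, Fam q ∧ q ∉ S ∧ q ∉ B ∧ Odd (Yd lres x (insert q S))) :
    ∀ n : ℕ, ∃ S : Finset ℕ, S0 ⊆ S ∧ (∀ p ∈ S, Fam p) ∧ Odd (Yd lres x S) ∧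
      S.card = S0.card + n ∧ (0 < n → ¬ S ⊆ B) := by
  intro n
  induction n with
  | zero => exact ⟨S0, subset_rfl, hS0, hodd, rfl, fun h => absurd h (lt_irrefl 0)⟩
  | succ n ih =>
    obtain ⟨S, h1, h2, h3, h4, h5⟩ := ih
    obtain ⟨q, hq, hqS, hqB, hq2⟩ := step S h1 h2 h3
    refine ⟨insert q S, h1.trans (Finset.subset_insert q S), ?_, hq2, ?_, ?_⟩
    · intro p hp
      rcases Finset.mem_insert.mp hp with rfl | hp
      · exact hq
      · exact h2 p hp
    · rw [Finset.card_insert_of_notMem hqS, h4]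
      ring
    · intro _ hsub
      exact hqB (hsub (Finset.mem_insert_self q S))

theorem t_EXI : S_EXI := by
  classical
  rintro x hx ⟨p1, hp1, hx1⟩ k hk
  -- it suffices to avoid finite sets
  suffices hmain : ∀ B : Finset ℕ, ∃ P : Finset ℕ, P.card = k ∧ (∀ p ∈ P, Fam p) ∧
      Odd (Yd lres x P) ∧ ¬ P ⊆ B by
    intro hfin
    obtain ⟨P, h1, h2, h3, h4⟩ := hmain (hfin.toFinset.biUnion id)
    apply h4
    intro p hp
    exact Finset.mem_biUnion.mpr ⟨P, hfin.mem_toFinset.mpr ⟨h1, h2, h3⟩, hp⟩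
  intro B
  set Bf := B.filter Fam with hBf
  have hBfam : ∀ p ∈ Bf, Fam p := fun p hp => (Finset.mem_filter.mp hp).2
  have hnB : ∀ {q : ℕ} {F : Finset ℕ}, Fam q → q ∉ F ∪ Bf → q ∉ F ∧ q ∉ B := by
    intro q F hq h
    refine ⟨fun h' => h (Finset.mem_union_left _ h'), fun h' => h (Finset.mem_union_right _ ?_)⟩
    exact Finset.mem_filter.mpr ⟨h', hq⟩
  have hunion : ∀ {F G : Finset ℕ}, (∀ p ∈ F, Fam p) → (∀ p ∈ G, Fam p) → ∀ p ∈ F ∪ G, Fam p := by
    intro F G hF hG p hp
    rcases Finset.mem_union.mp hp with h | h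
    · exact hF p h
    · exact hG p h
  by_cases hA : ∀ F : Finset ℕ, (∀ p ∈ F, Fam p) → p1 ∈ F → ∃ q, Fam q ∧ q ∉ F ∧
      (∀ p ∈ F, jacobiSym q p = 1) ∧ x q = 1
  · -- isolated points
    obtain ⟨S, h1, h2, h3, h4, h5⟩ := extend x B {p1}
      (fun p hp => by rw [Finset.mem_singleton] at hp; exact hp ▸ hp1) (odd_single hx1) (by
        intro S hS hSf hodd
        obtain ⟨q, hq, hqF, hJ, hxq⟩ := hA (S ∪ Bf) (hunion hSf hBfam)
          (Finset.mem_union_left _ (hS (Finset.mem_singleton_self p1)))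
        obtain ⟨hqS, hqB⟩ := hnB hq hqF
        exact ⟨q, hq, hqS, hqB, add_iso hqS
          (fun p hp => lres_zero (hSf p hp) hq (hJ p (Finset.mem_union_left _ hp))) hxq hodd⟩)
      (k - 1)
    refine ⟨S, ?_, h2, h3, h5 (by omega)⟩
    rw [h4, Finset.card_singleton]
    omega
  by_cases hB : ∀ F : Finset ℕ, (∀ p ∈ F, Fam p) → p1 ∈ F → ∃ q, Fam q ∧ q ∉ F ∧
      jacobiSym q p1 = -1 ∧ (∀ p ∈ F, p ≠ p1 → jacobiSym q p = 1) ∧ x q = 0
  · obtain ⟨S, h1, h2, h3, h4, h5⟩ := extend x B {p1}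
      (fun p hp => by rw [Finset.mem_singleton] at hp; exact hp ▸ hp1) (odd_single hx1) (by
        intro S hS hSf hodd
        have hpS : p1 ∈ S := hS (Finset.mem_singleton_self p1)
        obtain ⟨q, hq, hqF, hJ1, hJ, hxq⟩ := hB (S ∪ Bf) (hunion hSf hBfam)
          (Finset.mem_union_left _ hpS)
        obtain ⟨hqS, hqB⟩ := hnB hq hqF
        exact ⟨q, hq, hqS, hqB, add_leaf hqS hpS
          (fun p hp hpp => lres_zero (hSf p hp) hq (hJ p (Finset.mem_union_left _ hp) hpp))
          (lres_one hJ1).1 hxq hodd⟩)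
      (k - 1)
    refine ⟨S, ?_, h2, h3, h5 (by omega)⟩
    rw [h4, Finset.card_singleton]
    omega
  push Not at hA hB
  obtain ⟨Fa, hFa, hpa, hA⟩ := hA
  obtain ⟨Fb, hFb, hpb, hB⟩ := hB
  -- the conditions for the union
  have hA' : ∀ q, Fam q → q ∉ Fa ∪ Fb → (∀ p ∈ Fa ∪ Fb, jacobiSym q p = 1) → x q = 0 := by
    intro q hq hqF hJ
    have h1 := hA q hq (fun h => hqF (Finset.mem_union_left _ h))
      (fun p hp => hJ p (Finset.mem_union_left _ hp))
    exact (hx q).resolve_right h1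
  have hB' : ∀ q, Fam q → q ∉ Fa ∪ Fb → jacobiSym q p1 = -1 →
      (∀ p ∈ Fa ∪ Fb, p ≠ p1 → jacobiSym q p = 1) → x q = 1 := by
    intro q hq hqF hJ1 hJ
    have h1 := hB q hq (fun h => hqF (Finset.mem_union_right _ h)) hJ1
      (fun p hp => hJ p (Finset.mem_union_right _ hp))
    exact (hx q).resolve_left h1
  set F := Fa ∪ Fb with hFdef
  have hFf : ∀ p ∈ F, Fam p := hunion hFa hFb
  have hp1F : p1 ∈ F := Finset.mem_union_left _ hpa
  obtain ⟨q2, hq2, hq2F, hq2J⟩ := exists_fam (F ∪ Bf) (hunion hFf hBfam)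
    (fun p => if p = p1 then -1 else 1) (fun p _ => by
      show (if p = p1 then (-1 : ℤ) else 1) = 1 ∨ (if p = p1 then (-1 : ℤ) else 1) = -1
      by_cases h : p = p1
      · rw [if_pos h]; exact Or.inr rfl
      · rw [if_neg h]; exact Or.inl rfl)
  obtain ⟨hq2F', hq2B⟩ := hnB hq2 hq2F
  have hq2p1 : jacobiSym q2 p1 = -1 := by
    have := hq2J p1 (Finset.mem_union_left _ hp1F)
    simpa using this
  have hxq2 : x q2 = 1 := hB' q2 hq2 hq2F' hq2p1 fun p hp hpp => by
    have := hq2J p (Finset.mem_union_left _ hp)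
    rwa [if_neg hpp] at this
  have hq2ne : q2 ≠ p1 := fun h => hq2F' (h ▸ hp1F)
  have hodd2 : Odd (Yd lres x {q2, p1}) :=
    odd_pair hq2ne hx1 hxq2 (lres_one hq2p1).1 (lres_one hq2p1).2
  obtain ⟨S, h1, h2, h3, h4, h5⟩ := extend x B {q2, p1}
    (fun p hp => by
      rcases Finset.mem_insert.mp hp with rfl | hp
      · exact hq2
      · rw [Finset.mem_singleton] at hp
        exact hp ▸ hp1) hodd2 (by
      intro S hS hSf hodd
      have hq2S : q2 ∈ S := hS (by simp)
      obtain ⟨q, hq, hqF, hJ⟩ := exists_fam ((S ∪ F) ∪ Bf) (hunion (hunion hSf hFf) hBfam)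
        (fun p => if p = q2 then -1 else 1) (fun p _ => by
          show (if p = q2 then (-1 : ℤ) else 1) = 1 ∨ (if p = q2 then (-1 : ℤ) else 1) = -1
          by_cases h : p = q2
          · rw [if_pos h]; exact Or.inr rfl
          · rw [if_neg h]; exact Or.inl rfl)
      obtain ⟨hqSF, hqB⟩ := hnB hq hqF
      have hqS : q ∉ S := fun h => hqSF (Finset.mem_union_left _ h)
      have hqF' : q ∉ F := fun h => hqSF (Finset.mem_union_right _ h)
      have hxq : x q = 0 := hA' q hq hqF' fun p hp => by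
        have := hJ p (Finset.mem_union_left _ (Finset.mem_union_right _ hp))
        have hne : p ≠ q2 := fun h => hq2F' (h ▸ hp)
        rwa [if_neg hne] at this
      refine ⟨q, hq, hqS, hqB, add_leaf hqS hq2S (fun p hp hpp => lres_zero (hSf p hp) hq ?_)
        (lres_one ?_).1 hxq hodd⟩
      · have := hJ p (Finset.mem_union_left _ (Finset.mem_union_left _ hp))
        rwa [if_neg hpp] at this
      · have := hJ q2 (Finset.mem_union_left _ (Finset.mem_union_left _ hq2S))
        simpa using this)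
    (k - 2)
  refine ⟨S, ?_, h2, h3, fun hsub => hq2B (hsub (h1 (by simp)))⟩
  rw [h4, Finset.card_pair hq2ne]
  omega

end Pool.Agent.Y931.Z700
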