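import Mathlib
import Pool.Agent.Z700.Defs

/-! # Representations of `9 m` by `b² + 14 y²`: rigidity and product formula -/

set_option autoImplicit false

namespace Pool.Agent.Y931.Z700

open Finset Pool.Agent.Z700

theorem fam_mod {p : ℕ} (h : Fam p) : p % 24 = 1 := h.2.1

theorem pr_mod {P : Finset ℕ} (hP : ∀ p ∈ P, Fam p) : pr P % 24 = 1 := by
  classical
  unfold pr
  induction P using Finset.induction_on with
  | empty => simp
  | insert a s ha ih =>
    rw [Finset.prod_insert ha, Nat.mul_mod, fam_mod (hP a (Finset.mem_insert_self a s)),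
      ih fun p hp => hP p (Finset.mem_insert_of_mem hp)]

theorem pr_dvd {P : Finset ℕ} (hP : ∀ p ∈ P, Fam p) {z : ℤ} (h : ∀ p ∈ P, (p : ℤ) ∣ z) :
    (pr P : ℤ) ∣ z := by
  classical
  unfold pr
  rw [Nat.cast_prod]
  refine Finset.prod_dvd_of_coprime ?_ h
  intro p hp q hq hpq
  have h1 : Nat.Coprime p q := (Nat.coprime_primes (hP p hp).1 (hP q hq).1).mpr hpq
  exact Nat.isCoprime_iff_coprime.mpr h1

theorem pr_pos {P : Finset ℕ} (hP : ∀ p ∈ P, Fam p) : 0 < pr P :=
  Finset.prod_pos fun p hp => (hP p hp).1.pos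

theorem dvd_pr {P : Finset ℕ} {p : ℕ} (hp : p ∈ P) : p ∣ pr P := Finset.dvd_prod_of_mem _ hp

theorem pr_sq {P : Finset ℕ} (hP : ∀ p ∈ P, Fam p) : Squarefree (pr P) := by
  unfold pr
  refine Finset.squarefree_prod_of_pairwise_isCoprime ?_ fun p hp => (hP p hp).1.prime.squarefree
  intro p hp q hq hpq
  exact Nat.coprime_iff_isRelPrime.mp ((Nat.coprime_primes (hP p hp).1 (hP q hq).1).mpr hpq)

theorem coprime_by {P : Finset ℕ} (hP : ∀ p ∈ P, Fam p) {b y : ℤ}
    (h : 9 * (pr P : ℤ) = b ^ 2 + 14 * y ^ 2) (h3 : ¬ (3 : ℤ) ∣ b) : IsCoprime b y := by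
  rw [Int.isCoprime_iff_gcd_eq_one]
  by_contra hg
  obtain ⟨r, hr, hrg⟩ := Nat.exists_prime_and_dvd hg
  have hrb : (r : ℤ) ∣ b := (Int.natCast_dvd_natCast.mpr hrg).trans (Int.gcd_dvd_left ..)
  have hry : (r : ℤ) ∣ y := (Int.natCast_dvd_natCast.mpr hrg).trans (Int.gcd_dvd_right ..)
  have h2 : (r : ℤ) ^ 2 ∣ 9 * (pr P : ℤ) := by
    rw [h]
    exact dvd_add (pow_dvd_pow_of_dvd hrb 2) (Dvd.dvd.mul_left (pow_dvd_pow_of_dvd hry 2) _)
  have h4 : r ^ 2 ∣ 9 * pr P := by exact_mod_cast h2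
  have hr3 : r ≠ 3 := by
    rintro rfl
    exact h3 (by exact_mod_cast hrb)
  have h5 : Nat.Coprime (r ^ 2) 9 := by
    have : Nat.Coprime r 3 := (Nat.coprime_primes hr Nat.prime_three).mpr hr3
    have h9 : (9 : ℕ) = 3 ^ 2 := by norm_num
    rw [h9]
    exact Nat.Coprime.pow _ _ this
  have h6 : r ^ 2 ∣ pr P := h5.dvd_of_dvd_mul_left h4
  have h7 : r * r ∣ pr P := by rwa [← pow_two]
  have h8 := pr_sq hP r h7
  exact hr.one_lt.ne' (Nat.isUnit_iff.mp h8)

theorem t_SOLC : S_SOLC := by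
  rintro P hP ⟨b, y⟩ ⟨hq, hb4, hb3, hyb⟩ ⟨b', y'⟩ ⟨hq', hb4', hb3', hyb'⟩ hdiv
  simp only at hq hb4 hb3 hyb hq' hb4' hb3' hyb' hdiv
  have hm := pr_dvd hP hdiv
  have hmpos : (0 : ℤ) < pr P := by exact_mod_cast pr_pos hP
  have hmod := pr_mod hP
  have h9 : (9 : ℤ) ∣ b * y' - b' * y := by
    have h1 : (9 : ℤ) ∣ (b * y' + b' * y) * (b * y' - b' * y) :=
      ⟨(pr P : ℤ) * (y' ^ 2 - y ^ 2), by linear_combination (-(y' ^ 2)) * hq + y ^ 2 * hq'⟩
    have h2 : ¬ (3 : ℤ) ∣ b * y' + b' * y := by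
      intro h
      have h3 : (3 : ℤ) ∣ 2 * (b * b') := by
        have h4 : 2 * (b * b') = (b * y' + b' * y) - b * (y' - b') - b' * (y - b) := by ring
        rw [h4]
        exact dvd_sub (dvd_sub h (Dvd.dvd.mul_left hyb' _)) (Dvd.dvd.mul_left hyb _)
      rcases Int.prime_three.dvd_or_dvd h3 with h5 | h5
      · norm_num at h5
      · rcases Int.prime_three.dvd_or_dvd h5 with h6 | h6
        · exact hb3 h6
        · exact hb3' h6
    have h3 : IsCoprime (9 : ℤ) (b * y' + b' * y) := by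
      have : IsCoprime (3 : ℤ) (b * y' + b' * y) :=
        (Int.prime_three.coprime_iff_not_dvd).mpr h2
      have h9 : (9 : ℤ) = 3 ^ 2 := by norm_num
      rw [h9]
      exact this.pow_left
    exact h3.dvd_of_dvd_mul_left h1
  have hcop : IsCoprime (9 : ℤ) (pr P : ℤ) := by
    have h1 : Nat.Coprime 9 (pr P) := by
      have h2 : Nat.Coprime 3 (pr P) := by
        rw [Nat.Prime.coprime_iff_not_dvd Nat.prime_three]
        omega
      have h9 : (9 : ℕ) = 3 ^ 2 := by norm_num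
      rw [h9]
      exact h2.pow_left _
    exact_mod_cast Nat.isCoprime_iff_coprime.mpr h1
  have hall : 9 * (pr P : ℤ) ∣ b * y' - b' * y := hcop.mul_dvd h9 hm
  have hid : (b * b' + 14 * y * y') ^ 2 + 14 * (b * y' - b' * y) ^ 2 = (9 * (pr P : ℤ)) ^ 2 := by
    have : (9 * (pr P : ℤ)) ^ 2 = (b ^ 2 + 14 * y ^ 2) * (b' ^ 2 + 14 * y' ^ 2) := by
      rw [← hq, ← hq']
      ring
    rw [this]
    ring
  have hW : b * y' - b' * y = 0 := by
    by_contra hne
    obtain ⟨c, hc⟩ := hall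
    have hc0 : c ≠ 0 := by
      rintro rfl
      exact hne (by rw [hc]; ring)
    have hc1 : 1 ≤ c ^ 2 := by
      have := sq_pos_of_ne_zero hc0 |>.le
      have h2 : 0 < c ^ 2 := by positivity
      omega
    rw [hc] at hid
    nlinarith [sq_nonneg (b * b' + 14 * y * y'), mul_pos hmpos hmpos,
      mul_le_mul_of_nonneg_left hc1 (by positivity : (0:ℤ) ≤ (9 * (pr P : ℤ)) ^ 2)]
  have hy0 : ¬ (3 : ℤ) ∣ y := fun h => hb3 (by
    have : b = y - (y - b) := by ring
    rw [this]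
    exact dvd_sub h hyb)
  have hy1 : y ≠ 0 := by
    rintro rfl
    exact hy0 (dvd_zero _)
  have h2 : y' ^ 2 = y ^ 2 := by
    have h3 : 9 * (pr P : ℤ) * (y' ^ 2 - y ^ 2) = 0 := by
      have : 9 * (pr P : ℤ) * (y' ^ 2 - y ^ 2) = (b * y' + b' * y) * (b * y' - b' * y) := by
        linear_combination (y' ^ 2) * hq - y ^ 2 * hq'
      rw [this, hW, mul_zero]
    rcases mul_eq_zero.mp h3 with h4 | h4
    · exfalso
      have : (9 : ℤ) * (pr P : ℤ) > 0 := by positivity
      omega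
    · linarith
  rcases sq_eq_sq_iff_eq_or_eq_neg.mp h2 with h3 | h3
  · subst h3
    have h4 : (b - b') * y' = 0 := by linear_combination hW
    rcases mul_eq_zero.mp h4 with h5 | h5
    · have : b = b' := by linarith
      rw [this]
    · exact absurd h5 hy1
  · subst h3
    have h4 : (b + b') * y = 0 := by linear_combination -hW
    rcases mul_eq_zero.mp h4 with h5 | h5
    · exfalso
      omega
    · exact absurd h5 hy1

theorem prod_jacobi {P : Finset ℕ} (hP : ∀ p ∈ P, Fam p) (y : ℤ) :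
    ∏ p ∈ P, jacobiSym y p = jacobiSym y (pr P) := by
  classical
  unfold pr
  induction P using Finset.induction_on with
  | empty => simp
  | insert a s ha ih =>
    have hs : ∀ p ∈ s, Fam p := fun p hp => hP p (Finset.mem_insert_of_mem hp)
    have hap : 0 < a := (hP a (Finset.mem_insert_self a s)).1.pos
    have hsp : 0 < ∏ p ∈ s, p := Finset.prod_pos fun p hp => (hs p hp).1.pos
    haveI : NeZero a := ⟨hap.ne'⟩
    haveI : NeZero (∏ p ∈ s, p) := ⟨hsp.ne'⟩
    rw [Finset.prod_insert ha, Finset.prod_insert ha, jacobiSym.mul_right, ih hs]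

theorem t_SOLP : S_SOLP := by
  classical
  rintro P hP ⟨b, y⟩ ⟨hq, hb4, hb3, hyb⟩
  simp only at hq hb4 hb3 hyb ⊢
  have hcop := coprime_by hP hq hb3
  have hmod := pr_mod hP
  have hpy : ∀ p ∈ P, ¬ (p : ℤ) ∣ y := by
    intro p hp hd
    have hpb : (p : ℤ) ∣ b ^ 2 := by
      have h1 : b ^ 2 = 9 * (pr P : ℤ) - 14 * y ^ 2 := by linarith
      rw [h1]
      refine dvd_sub (Dvd.dvd.mul_left (by exact_mod_cast dvd_pr hp) _) ?_
      exact Dvd.dvd.mul_left (dvd_pow hd two_ne_zero) _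
    have hpp : Prime (p : ℤ) := Nat.prime_iff_prime_int.mp (hP p hp).1
    exact hpp.not_unit (hcop.isUnit_of_dvd' (hpp.dvd_of_dvd_pow hpb) hd)
  refine ⟨fun p hp => ?_, ?_⟩
  · apply jacobiSym.eq_one_or_neg_one
    rw [Int.gcd_comm, ← Int.isCoprime_iff_gcd_eq_one]
    have hpp : Prime (p : ℤ) := Nat.prime_iff_prime_int.mp (hP p hp).1
    exact (hpp.coprime_iff_not_dvd).mpr (hpy p hp)
  · rw [prod_jacobi hP]
    have hm1 : pr P % 4 = 1 := by omega
    have hmodd : Odd (pr P) := by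
      rw [Nat.odd_iff]
      omega
    have hm8 : pr P % 8 = 1 := by omega
    have hneg : jacobiSym (-1) (pr P) = 1 := by
      rw [jacobiSym.at_neg_one hmodd, ZMod.χ₄_nat_one_mod_four hm1]
    have htwo : jacobiSym 2 (pr P) = 1 := by
      rw [jacobiSym.at_two hmodd, ZMod.χ₈_nat_eq_if_mod_eight]
      simp [hm8]
      omega
    have hy0 : y ≠ 0 := by
      rintro rfl
      apply hb3
      have : b = -(0 - b) := by ring
      rw [this]
      exact (dvd_neg).mpr hyb
    -- reduce to the absolute value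
    have habs : jacobiSym y (pr P) = jacobiSym (y.natAbs : ℤ) (pr P) := by
      rcases Int.natAbs_eq y with h | h
      · rw [← h]
      · conv_lhs => rw [h]
        rw [← neg_one_mul, jacobiSym.mul_left, hneg, one_mul]
    obtain ⟨i, o, hodd, ho⟩ := Nat.exists_eq_two_pow_mul_odd (Int.natAbs_ne_zero.mpr hy0)
    rw [habs, ho]
    push_cast
    rw [jacobiSym.mul_left, jacobiSym.pow_left, htwo, one_pow, one_mul]
    rw [← jacobiSym.quadratic_reciprocity_one_mod_four hm1 hodd]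
    have hoy : (o : ℤ) ∣ y := Int.natCast_dvd.mpr ⟨2 ^ i, by rw [ho]; ring⟩
    have hbo : IsCoprime b (o : ℤ) := hcop.of_isCoprime_of_dvd_right hoy
    have h3o : IsCoprime (3 : ℤ) (o : ℤ) := by
      rw [Int.prime_three.coprime_iff_not_dvd]
      intro h
      have h1 : (3 : ℤ) ∣ y := h.trans hoy
      apply hb3
      have : b = y - (y - b) := by ring
      rw [this]
      exact dvd_sub h1 hyb
    have e1 : jacobiSym (9 * (pr P : ℤ)) o = jacobiSym (b ^ 2) o := by
      apply jacobiSym.mod_left'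
      apply Int.emod_emod_of_dvd _ (dvd_refl _) |>.symm.trans
      rw [hq]
      rw [Int.emod_emod_of_dvd _ (dvd_refl _)]
      obtain ⟨t, ht⟩ := hoy
      rw [show b ^ 2 + 14 * y ^ 2 = b ^ 2 + (o : ℤ) * (14 * t * y) by rw [pow_two y]; nth_rw 1 [ht]; ring]
      exact Int.add_mul_emod_self_left _ _ _
    have e2 : jacobiSym (b ^ 2) o = 1 := by
      rw [jacobiSym.sq_one' (Int.isCoprime_iff_gcd_eq_one.mp hbo)]
    have e3 : jacobiSym 9 o = 1 := by
      have : (9 : ℤ) = 3 ^ 2 := by norm_num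
      rw [this]
      exact jacobiSym.sq_one' (Int.isCoprime_iff_gcd_eq_one.mp h3o)
    rw [jacobiSym.mul_left, e3, one_mul, e2] at e1
    exact e1

end Pool.Agent.Y931.Z700
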